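import Mathlib

set_option autoImplicit false
set_option linter.unusedSimpArgs false

/-! The alternative algebra `B = G ⊕ M` over the Grassmann algebra `G`. -/

namespace Pool.Agent.H.MP_a47eec_al

open CliffordAlgebra

/-- The Grassmann algebra on `n` generators. -/
abbrev Gr (n : ℕ) : Type := ExteriorAlgebra ℚ (Fin n → ℚ)

section Gr
variable {n : ℕ}

/-- parity automorphism -/
noncomputable def tau (n : ℕ) : Gr n →ₐ[ℚ] Gr n := involute

theorem tau_tau (a : Gr n) : tau n (tau n a) = a := involute_involutive a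

theorem tau_ι (m : Fin n → ℚ) : tau n (ExteriorAlgebra.ι ℚ m) = - ExteriorAlgebra.ι ℚ m :=
  involute_ι m

theorem ι_comm (m : Fin n → ℚ) (a : Gr n) :
    ExteriorAlgebra.ι ℚ m * a = tau n a * ExteriorAlgebra.ι ℚ m := by
  induction a using ExteriorAlgebra.induction with
  | algebraMap r => rw [AlgHom.commutes, Algebra.commutes]
  | ι x =>
    rw [tau_ι, neg_mul]
    exact eq_neg_of_add_eq_zero_left (ExteriorAlgebra.ι_add_mul_swap m x)
  | mul a b ha hb => rw [map_mul, mul_assoc, ← hb, ← mul_assoc, ← mul_assoc, ha]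
  | add a b ha hb => rw [map_add, mul_add, add_mul, ha, hb]

theorem even_comm {a : Gr n} (ha : tau n a = a) (b : Gr n) : a * b = b * a := by
  induction b using ExteriorAlgebra.induction with
  | algebraMap r => rw [Algebra.commutes]
  | ι x => rw [ι_comm, ha]
  | mul b c hb hc => rw [← mul_assoc, hb, mul_assoc, hc, mul_assoc]
  | add b c hb hc => rw [add_mul, mul_add, hb, hc]

theorem odd_comm {p : Gr n} (hp : tau n p = -p) (b : Gr n) : p * b = tau n b * p := by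
  induction b using ExteriorAlgebra.induction with
  | algebraMap r => rw [AlgHom.commutes, Algebra.commutes]
  | ι x =>
    have := ι_comm x p
    rw [hp] at this
    rw [tau_ι, neg_mul, this, neg_mul, neg_neg]
  | mul b c hb hc => rw [← mul_assoc, hb, mul_assoc, hc, map_mul, mul_assoc]
  | add b c hb hc => rw [map_add, add_mul, mul_add, hb, hc]

/-- even part -/
noncomputable def ev (n : ℕ) : Gr n →ₗ[ℚ] Gr n :=
  (1/2 : ℚ) • (LinearMap.id + (tau n).toLinearMap)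

/-- odd part -/
noncomputable def od (n : ℕ) : Gr n →ₗ[ℚ] Gr n :=
  (1/2 : ℚ) • (LinearMap.id - (tau n).toLinearMap)

theorem ev_apply (a : Gr n) : ev n a = (1/2 : ℚ) • (a + tau n a) := rfl
theorem od_apply (a : Gr n) : od n a = (1/2 : ℚ) • (a - tau n a) := rfl

theorem ev_add_od (a : Gr n) : ev n a + od n a = a := by
  rw [ev_apply, od_apply, ← smul_add]
  have : a + tau n a + (a - tau n a) = (2 : ℚ) • a := by rw [two_smul]; abel
  rw [this, smul_smul]; norm_num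

theorem tau_ev (a : Gr n) : tau n (ev n a) = ev n a := by
  rw [ev_apply, map_smul, map_add, tau_tau, add_comm]

theorem tau_od (a : Gr n) : tau n (od n a) = - od n a := by
  rw [od_apply, map_smul, map_sub, tau_tau, ← smul_neg, neg_sub]

theorem ev_of_even {a : Gr n} (h : tau n a = a) : ev n a = a := by
  rw [ev_apply, h, ← two_smul ℚ a, smul_smul]; norm_num

theorem od_of_even {a : Gr n} (h : tau n a = a) : od n a = 0 := by
  rw [od_apply, h, sub_self, smul_zero]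

theorem ev_of_odd {a : Gr n} (h : tau n a = -a) : ev n a = 0 := by
  rw [ev_apply, h, add_neg_cancel, smul_zero]

theorem od_of_odd {a : Gr n} (h : tau n a = -a) : od n a = a := by
  rw [od_apply, h, sub_neg_eq_add, ← two_smul ℚ a, smul_smul]; norm_num

end Gr

theorem ev_mul {n : ℕ} (a b : Gr n) : ev n (a * b) = ev n a * ev n b + od n a * od n b := by
  simp only [ev_apply, od_apply, map_mul, smul_mul_smul_comm, ← smul_add]
  have : (a + tau n a) * (b + tau n b) + (a - tau n a) * (b - tau n b)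
      = (2 : ℚ) • (a * b + tau n a * tau n b) := by rw [two_smul]; noncomm_ring
  rw [this, smul_smul]; norm_num

theorem od_mul {n : ℕ} (a b : Gr n) : od n (a * b) = ev n a * od n b + od n a * ev n b := by
  simp only [ev_apply, od_apply, map_mul, smul_mul_smul_comm, ← smul_add]
  have : (a + tau n a) * (b - tau n b) + (a - tau n a) * (b + tau n b)
      = (2 : ℚ) • (a * b - tau n a * tau n b) := by rw [two_smul]; noncomm_ring
  rw [this, smul_smul]; norm_num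

/-- The alternative algebra: pairs `(g, m)`, product
`(a, m)(b, k) = (ab, a₀ k + a₁ k₀ + m b₀ - 2 m₀ b₁ - m₁ b₁)`. -/
def Alt (n : ℕ) : Type := Gr n × Gr n

namespace Alt
variable {n : ℕ}

/-- the additive structure (componentwise); not an instance, to keep a single path -/
noncomputable abbrev acg : AddCommGroup (Alt n) := inferInstanceAs (AddCommGroup (Gr n × Gr n))

/-- the product on `Alt n` -/
noncomputable def mul (x y : Alt n) : Alt n :=
  (x.1 * y.1,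
    ev n x.1 * y.2 + od n x.1 * ev n y.2 + x.2 * ev n y.1
      - (2 : ℚ) • (ev n x.2 * od n y.1) - od n x.2 * od n y.1)

@[ext] theorem ext' {x y : Alt n} (h1 : x.1 = y.1) (h2 : x.2 = y.2) : x = y := Prod.ext h1 h2

section
attribute [local instance] acg
theorem add_fst' (x y : Alt n) : (x + y).1 = x.1 + y.1 := rfl
theorem add_snd' (x y : Alt n) : (x + y).2 = x.2 + y.2 := rfl
theorem zero_fst' : (0 : Alt n).1 = 0 := rfl
theorem zero_snd' : (0 : Alt n).2 = 0 := rfl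
theorem mul_fst' (x y : Alt n) : (mul x y).1 = x.1 * y.1 := rfl
theorem mul_snd' (x y : Alt n) : (mul x y).2 = ev n x.1 * y.2 + od n x.1 * ev n y.2
      + x.2 * ev n y.1 - (2 : ℚ) • (ev n x.2 * od n y.1) - od n x.2 * od n y.1 := rfl

theorem left_distrib' (x y z : Alt n) : mul x (y + z) = mul x y + mul x z := by
  ext
  · simp only [mul_fst', add_fst', mul_add]
  · simp only [mul_snd', add_snd', add_fst', mul_add, map_add, smul_add]; abel

theorem right_distrib' (x y z : Alt n) : mul (x + y) z = mul x z + mul y z := by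
  ext
  · simp only [mul_fst', add_fst', add_mul]
  · simp only [mul_snd', add_snd', add_fst', add_mul, map_add, smul_add]; abel

theorem zero_mul' (x : Alt n) : mul 0 x = 0 := by
  ext
  · simp only [mul_fst', zero_fst', zero_mul]
  · simp only [mul_snd', zero_snd', zero_fst', map_zero, zero_mul, smul_zero, add_zero,
      sub_zero]

theorem mul_zero' (x : Alt n) : mul x 0 = 0 := by
  ext
  · simp only [mul_fst', zero_fst', mul_zero]
  · simp only [mul_snd', zero_snd', zero_fst', map_zero, mul_zero, smul_zero, add_zero,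
      sub_zero]
end

noncomputable instance : NonUnitalNonAssocRing (Alt n) :=
  { acg (n := n) with
    mul := mul
    left_distrib := left_distrib'
    right_distrib := right_distrib'
    zero_mul := zero_mul'
    mul_zero := mul_zero' }

theorem mul_fst (x y : Alt n) : (x * y).1 = x.1 * y.1 := rfl
theorem mul_snd (x y : Alt n) : (x * y).2 = ev n x.1 * y.2 + od n x.1 * ev n y.2
      + x.2 * ev n y.1 - (2 : ℚ) • (ev n x.2 * od n y.1) - od n x.2 * od n y.1 := rfl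

noncomputable instance : Module ℚ (Alt n) := inferInstanceAs (Module ℚ (Gr n × Gr n))

theorem add_fst (x y : Alt n) : (x + y).1 = x.1 + y.1 := rfl
theorem add_snd (x y : Alt n) : (x + y).2 = x.2 + y.2 := rfl
theorem zero_fst : (0 : Alt n).1 = 0 := rfl
theorem zero_snd : (0 : Alt n).2 = 0 := rfl
theorem smul_fst (c : ℚ) (x : Alt n) : (c • x).1 = c • x.1 := rfl
theorem smul_snd (c : ℚ) (x : Alt n) : (c • x).2 = c • x.2 := rfl

instance : IsScalarTower ℚ (Alt n) (Alt n) where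
  smul_assoc c x y := by
    change (c • x) * y = c • (x * y)
    ext
    · simp only [mul_fst, smul_fst, smul_mul_assoc]
    · simp only [mul_snd, smul_snd, smul_fst, map_smul, smul_mul_assoc, smul_sub, smul_add,
        smul_comm c (2 : ℚ)]

instance : SMulCommClass ℚ (Alt n) (Alt n) where
  smul_comm c x y := by
    change c • (x * y) = x * (c • y)
    ext
    · simp only [mul_fst, smul_fst, mul_smul_comm]
    · simp only [mul_snd, smul_snd, smul_fst, map_smul, mul_smul_comm, smul_sub, smul_add,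
        smul_comm c (2 : ℚ)]


theorem odd_sq {p : Gr n} (hp : tau n p = -p) : p * p = 0 := by
  have h := odd_comm hp p
  rw [hp, neg_mul] at h
  have h2 : (2 : ℚ) • (p * p) = 0 := by rw [two_smul]; nth_rewrite 1 [h]; exact neg_add_cancel _
  rcases smul_eq_zero.1 h2 with h3 | h3
  · norm_num at h3
  · exact h3

set_option maxHeartbeats 4000000 in
theorem left_alt (x y : Alt n) : (x * x) * y = x * (x * y) := by
  ext
  · simp only [mul_fst, mul_assoc]
  obtain ⟨a, m⟩ := x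
  obtain ⟨b, k⟩ := y
  simp only [mul_snd, mul_fst]
  simp only [ev_mul, od_mul, map_add, map_sub, map_smul]
  rw [← ev_add_od m, ← ev_add_od k]
  have hev : ∀ z : Gr n, ev n (ev n z) = ev n z := fun z => ev_of_even (tau_ev z)
  have hoe : ∀ z : Gr n, od n (ev n z) = 0 := fun z => od_of_even (tau_ev z)
  have heo : ∀ z : Gr n, ev n (od n z) = 0 := fun z => ev_of_odd (tau_od z)
  have hoo : ∀ z : Gr n, od n (od n z) = od n z := fun z => od_of_odd (tau_od z)
  simp only [map_add, hev, hoe, heo, hoo, zero_mul, mul_zero, add_zero, zero_add, sub_zero]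
  have ha0 := tau_ev a
  have ha1 := tau_od a
  have hm0 := tau_ev m
  have hm1 := tau_od m
  have hb0 := tau_ev b
  have hb1 := tau_od b
  have hk0 := tau_ev k
  have hk1 := tau_od k
  generalize ev n a = a0 at *
  generalize od n a = a1 at *
  generalize ev n m = m0 at *
  generalize od n m = m1 at *
  generalize ev n b = b0 at *
  generalize od n b = b1 at *
  generalize ev n k = k0 at *
  generalize od n k = k1 at *
  have c_m1_a1 : m1 * a1 = -(a1 * m1) := by rw [odd_comm hm1 a1, ha1, neg_mul]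
  have d_m1_a1 : ∀ z, m1 * (a1 * z) = -(a1 * (m1 * z)) := fun z => by rw [← mul_assoc, odd_comm hm1 a1, ha1, neg_mul, neg_mul, mul_assoc]
  have c_b1_a1 : b1 * a1 = -(a1 * b1) := by rw [odd_comm hb1 a1, ha1, neg_mul]
  have d_b1_a1 : ∀ z, b1 * (a1 * z) = -(a1 * (b1 * z)) := fun z => by rw [← mul_assoc, odd_comm hb1 a1, ha1, neg_mul, neg_mul, mul_assoc]
  have c_b1_m1 : b1 * m1 = -(m1 * b1) := by rw [odd_comm hb1 m1, hm1, neg_mul]
  have d_b1_m1 : ∀ z, b1 * (m1 * z) = -(m1 * (b1 * z)) := fun z => by rw [← mul_assoc, odd_comm hb1 m1, hm1, neg_mul, neg_mul, mul_assoc]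
  have c_k1_a1 : k1 * a1 = -(a1 * k1) := by rw [odd_comm hk1 a1, ha1, neg_mul]
  have d_k1_a1 : ∀ z, k1 * (a1 * z) = -(a1 * (k1 * z)) := fun z => by rw [← mul_assoc, odd_comm hk1 a1, ha1, neg_mul, neg_mul, mul_assoc]
  have c_k1_m1 : k1 * m1 = -(m1 * k1) := by rw [odd_comm hk1 m1, hm1, neg_mul]
  have d_k1_m1 : ∀ z, k1 * (m1 * z) = -(m1 * (k1 * z)) := fun z => by rw [← mul_assoc, odd_comm hk1 m1, hm1, neg_mul, neg_mul, mul_assoc]
  have c_k1_b1 : k1 * b1 = -(b1 * k1) := by rw [odd_comm hk1 b1, hb1, neg_mul]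
  have d_k1_b1 : ∀ z, k1 * (b1 * z) = -(b1 * (k1 * z)) := fun z => by rw [← mul_assoc, odd_comm hk1 b1, hb1, neg_mul, neg_mul, mul_assoc]
  have c_a0_a1 : a0 * a1 = a1 * a0 := even_comm ha0 a1
  have d_a0_a1 : ∀ z, a0 * (a1 * z) = a1 * (a0 * z) := fun z => by rw [← mul_assoc, even_comm ha0 a1, mul_assoc]
  have c_a0_m1 : a0 * m1 = m1 * a0 := even_comm ha0 m1
  have d_a0_m1 : ∀ z, a0 * (m1 * z) = m1 * (a0 * z) := fun z => by rw [← mul_assoc, even_comm ha0 m1, mul_assoc]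
  have c_a0_b1 : a0 * b1 = b1 * a0 := even_comm ha0 b1
  have d_a0_b1 : ∀ z, a0 * (b1 * z) = b1 * (a0 * z) := fun z => by rw [← mul_assoc, even_comm ha0 b1, mul_assoc]
  have c_a0_k1 : a0 * k1 = k1 * a0 := even_comm ha0 k1
  have d_a0_k1 : ∀ z, a0 * (k1 * z) = k1 * (a0 * z) := fun z => by rw [← mul_assoc, even_comm ha0 k1, mul_assoc]
  have c_m0_a1 : m0 * a1 = a1 * m0 := even_comm hm0 a1
  have d_m0_a1 : ∀ z, m0 * (a1 * z) = a1 * (m0 * z) := fun z => by rw [← mul_assoc, even_comm hm0 a1, mul_assoc]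
  have c_m0_m1 : m0 * m1 = m1 * m0 := even_comm hm0 m1
  have d_m0_m1 : ∀ z, m0 * (m1 * z) = m1 * (m0 * z) := fun z => by rw [← mul_assoc, even_comm hm0 m1, mul_assoc]
  have c_m0_b1 : m0 * b1 = b1 * m0 := even_comm hm0 b1
  have d_m0_b1 : ∀ z, m0 * (b1 * z) = b1 * (m0 * z) := fun z => by rw [← mul_assoc, even_comm hm0 b1, mul_assoc]
  have c_m0_k1 : m0 * k1 = k1 * m0 := even_comm hm0 k1
  have d_m0_k1 : ∀ z, m0 * (k1 * z) = k1 * (m0 * z) := fun z => by rw [← mul_assoc, even_comm hm0 k1, mul_assoc]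
  have c_m0_a0 : m0 * a0 = a0 * m0 := even_comm hm0 a0
  have d_m0_a0 : ∀ z, m0 * (a0 * z) = a0 * (m0 * z) := fun z => by rw [← mul_assoc, even_comm hm0 a0, mul_assoc]
  have c_b0_a1 : b0 * a1 = a1 * b0 := even_comm hb0 a1
  have d_b0_a1 : ∀ z, b0 * (a1 * z) = a1 * (b0 * z) := fun z => by rw [← mul_assoc, even_comm hb0 a1, mul_assoc]
  have c_b0_m1 : b0 * m1 = m1 * b0 := even_comm hb0 m1
  have d_b0_m1 : ∀ z, b0 * (m1 * z) = m1 * (b0 * z) := fun z => by rw [← mul_assoc, even_comm hb0 m1, mul_assoc]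
  have c_b0_b1 : b0 * b1 = b1 * b0 := even_comm hb0 b1
  have d_b0_b1 : ∀ z, b0 * (b1 * z) = b1 * (b0 * z) := fun z => by rw [← mul_assoc, even_comm hb0 b1, mul_assoc]
  have c_b0_k1 : b0 * k1 = k1 * b0 := even_comm hb0 k1
  have d_b0_k1 : ∀ z, b0 * (k1 * z) = k1 * (b0 * z) := fun z => by rw [← mul_assoc, even_comm hb0 k1, mul_assoc]
  have c_b0_a0 : b0 * a0 = a0 * b0 := even_comm hb0 a0
  have d_b0_a0 : ∀ z, b0 * (a0 * z) = a0 * (b0 * z) := fun z => by rw [← mul_assoc, even_comm hb0 a0, mul_assoc]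
  have c_b0_m0 : b0 * m0 = m0 * b0 := even_comm hb0 m0
  have d_b0_m0 : ∀ z, b0 * (m0 * z) = m0 * (b0 * z) := fun z => by rw [← mul_assoc, even_comm hb0 m0, mul_assoc]
  have c_k0_a1 : k0 * a1 = a1 * k0 := even_comm hk0 a1
  have d_k0_a1 : ∀ z, k0 * (a1 * z) = a1 * (k0 * z) := fun z => by rw [← mul_assoc, even_comm hk0 a1, mul_assoc]
  have c_k0_m1 : k0 * m1 = m1 * k0 := even_comm hk0 m1
  have d_k0_m1 : ∀ z, k0 * (m1 * z) = m1 * (k0 * z) := fun z => by rw [← mul_assoc, even_comm hk0 m1, mul_assoc]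
  have c_k0_b1 : k0 * b1 = b1 * k0 := even_comm hk0 b1
  have d_k0_b1 : ∀ z, k0 * (b1 * z) = b1 * (k0 * z) := fun z => by rw [← mul_assoc, even_comm hk0 b1, mul_assoc]
  have c_k0_k1 : k0 * k1 = k1 * k0 := even_comm hk0 k1
  have d_k0_k1 : ∀ z, k0 * (k1 * z) = k1 * (k0 * z) := fun z => by rw [← mul_assoc, even_comm hk0 k1, mul_assoc]
  have c_k0_a0 : k0 * a0 = a0 * k0 := even_comm hk0 a0
  have d_k0_a0 : ∀ z, k0 * (a0 * z) = a0 * (k0 * z) := fun z => by rw [← mul_assoc, even_comm hk0 a0, mul_assoc]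
  have c_k0_m0 : k0 * m0 = m0 * k0 := even_comm hk0 m0
  have d_k0_m0 : ∀ z, k0 * (m0 * z) = m0 * (k0 * z) := fun z => by rw [← mul_assoc, even_comm hk0 m0, mul_assoc]
  have c_k0_b0 : k0 * b0 = b0 * k0 := even_comm hk0 b0
  have d_k0_b0 : ∀ z, k0 * (b0 * z) = b0 * (k0 * z) := fun z => by rw [← mul_assoc, even_comm hk0 b0, mul_assoc]
  have s_a1 : a1 * a1 = 0 := odd_sq ha1
  have t_a1 : ∀ z, a1 * (a1 * z) = 0 := fun z => by rw [← mul_assoc, odd_sq ha1, zero_mul]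
  have s_m1 : m1 * m1 = 0 := odd_sq hm1
  have t_m1 : ∀ z, m1 * (m1 * z) = 0 := fun z => by rw [← mul_assoc, odd_sq hm1, zero_mul]
  have s_b1 : b1 * b1 = 0 := odd_sq hb1
  have t_b1 : ∀ z, b1 * (b1 * z) = 0 := fun z => by rw [← mul_assoc, odd_sq hb1, zero_mul]
  have s_k1 : k1 * k1 = 0 := odd_sq hk1
  have t_k1 : ∀ z, k1 * (k1 * z) = 0 := fun z => by rw [← mul_assoc, odd_sq hk1, zero_mul]
  simp only [mul_add, add_mul, mul_sub, sub_mul, mul_assoc, smul_add, smul_sub, smul_mul_assoc,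
    mul_smul_comm, mul_neg, neg_mul, smul_neg, neg_neg, mul_zero, zero_mul, smul_zero, neg_zero,
    c_m1_a1, d_m1_a1, c_b1_a1, d_b1_a1, c_b1_m1, d_b1_m1, c_k1_a1, d_k1_a1, c_k1_m1, d_k1_m1, c_k1_b1, d_k1_b1, c_a0_a1, d_a0_a1, c_a0_m1, d_a0_m1, c_a0_b1, d_a0_b1, c_a0_k1, d_a0_k1, c_m0_a1, d_m0_a1, c_m0_m1, d_m0_m1, c_m0_b1, d_m0_b1, c_m0_k1, d_m0_k1, c_m0_a0, d_m0_a0, c_b0_a1, d_b0_a1, c_b0_m1, d_b0_m1, c_b0_b1, d_b0_b1, c_b0_k1, d_b0_k1, c_b0_a0, d_b0_a0, c_b0_m0, d_b0_m0, c_k0_a1, d_k0_a1, c_k0_m1, d_k0_m1, c_k0_b1, d_k0_b1, c_k0_k1, d_k0_k1, c_k0_a0, d_k0_a0, c_k0_m0, d_k0_m0, c_k0_b0, d_k0_b0, s_a1, t_a1, s_m1, t_m1, s_b1, t_b1, s_k1, t_k1]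
  module

set_option maxHeartbeats 4000000 in
theorem right_alt (x y : Alt n) : (y * x) * x = y * (x * x) := by
  ext
  · simp only [mul_fst, mul_assoc]
  obtain ⟨a, m⟩ := x
  obtain ⟨b, k⟩ := y
  simp only [mul_snd, mul_fst]
  simp only [ev_mul, od_mul, map_add, map_sub, map_smul]
  rw [← ev_add_od m, ← ev_add_od k]
  have hev : ∀ z : Gr n, ev n (ev n z) = ev n z := fun z => ev_of_even (tau_ev z)
  have hoe : ∀ z : Gr n, od n (ev n z) = 0 := fun z => od_of_even (tau_ev z)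
  have heo : ∀ z : Gr n, ev n (od n z) = 0 := fun z => ev_of_odd (tau_od z)
  have hoo : ∀ z : Gr n, od n (od n z) = od n z := fun z => od_of_odd (tau_od z)
  simp only [map_add, hev, hoe, heo, hoo, zero_mul, mul_zero, add_zero, zero_add, sub_zero]
  have ha0 := tau_ev a
  have ha1 := tau_od a
  have hm0 := tau_ev m
  have hm1 := tau_od m
  have hb0 := tau_ev b
  have hb1 := tau_od b
  have hk0 := tau_ev k
  have hk1 := tau_od k
  generalize ev n a = a0 at *
  generalize od n a = a1 at *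
  generalize ev n m = m0 at *
  generalize od n m = m1 at *
  generalize ev n b = b0 at *
  generalize od n b = b1 at *
  generalize ev n k = k0 at *
  generalize od n k = k1 at *
  have c_m1_a1 : m1 * a1 = -(a1 * m1) := by rw [odd_comm hm1 a1, ha1, neg_mul]
  have d_m1_a1 : ∀ z, m1 * (a1 * z) = -(a1 * (m1 * z)) := fun z => by rw [← mul_assoc, odd_comm hm1 a1, ha1, neg_mul, neg_mul, mul_assoc]
  have c_b1_a1 : b1 * a1 = -(a1 * b1) := by rw [odd_comm hb1 a1, ha1, neg_mul]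
  have d_b1_a1 : ∀ z, b1 * (a1 * z) = -(a1 * (b1 * z)) := fun z => by rw [← mul_assoc, odd_comm hb1 a1, ha1, neg_mul, neg_mul, mul_assoc]
  have c_b1_m1 : b1 * m1 = -(m1 * b1) := by rw [odd_comm hb1 m1, hm1, neg_mul]
  have d_b1_m1 : ∀ z, b1 * (m1 * z) = -(m1 * (b1 * z)) := fun z => by rw [← mul_assoc, odd_comm hb1 m1, hm1, neg_mul, neg_mul, mul_assoc]
  have c_k1_a1 : k1 * a1 = -(a1 * k1) := by rw [odd_comm hk1 a1, ha1, neg_mul]
  have d_k1_a1 : ∀ z, k1 * (a1 * z) = -(a1 * (k1 * z)) := fun z => by rw [← mul_assoc, odd_comm hk1 a1, ha1, neg_mul, neg_mul, mul_assoc]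
  have c_k1_m1 : k1 * m1 = -(m1 * k1) := by rw [odd_comm hk1 m1, hm1, neg_mul]
  have d_k1_m1 : ∀ z, k1 * (m1 * z) = -(m1 * (k1 * z)) := fun z => by rw [← mul_assoc, odd_comm hk1 m1, hm1, neg_mul, neg_mul, mul_assoc]
  have c_k1_b1 : k1 * b1 = -(b1 * k1) := by rw [odd_comm hk1 b1, hb1, neg_mul]
  have d_k1_b1 : ∀ z, k1 * (b1 * z) = -(b1 * (k1 * z)) := fun z => by rw [← mul_assoc, odd_comm hk1 b1, hb1, neg_mul, neg_mul, mul_assoc]
  have c_a0_a1 : a0 * a1 = a1 * a0 := even_comm ha0 a1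
  have d_a0_a1 : ∀ z, a0 * (a1 * z) = a1 * (a0 * z) := fun z => by rw [← mul_assoc, even_comm ha0 a1, mul_assoc]
  have c_a0_m1 : a0 * m1 = m1 * a0 := even_comm ha0 m1
  have d_a0_m1 : ∀ z, a0 * (m1 * z) = m1 * (a0 * z) := fun z => by rw [← mul_assoc, even_comm ha0 m1, mul_assoc]
  have c_a0_b1 : a0 * b1 = b1 * a0 := even_comm ha0 b1
  have d_a0_b1 : ∀ z, a0 * (b1 * z) = b1 * (a0 * z) := fun z => by rw [← mul_assoc, even_comm ha0 b1, mul_assoc]
  have c_a0_k1 : a0 * k1 = k1 * a0 := even_comm ha0 k1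
  have d_a0_k1 : ∀ z, a0 * (k1 * z) = k1 * (a0 * z) := fun z => by rw [← mul_assoc, even_comm ha0 k1, mul_assoc]
  have c_m0_a1 : m0 * a1 = a1 * m0 := even_comm hm0 a1
  have d_m0_a1 : ∀ z, m0 * (a1 * z) = a1 * (m0 * z) := fun z => by rw [← mul_assoc, even_comm hm0 a1, mul_assoc]
  have c_m0_m1 : m0 * m1 = m1 * m0 := even_comm hm0 m1
  have d_m0_m1 : ∀ z, m0 * (m1 * z) = m1 * (m0 * z) := fun z => by rw [← mul_assoc, even_comm hm0 m1, mul_assoc]
  have c_m0_b1 : m0 * b1 = b1 * m0 := even_comm hm0 b1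
  have d_m0_b1 : ∀ z, m0 * (b1 * z) = b1 * (m0 * z) := fun z => by rw [← mul_assoc, even_comm hm0 b1, mul_assoc]
  have c_m0_k1 : m0 * k1 = k1 * m0 := even_comm hm0 k1
  have d_m0_k1 : ∀ z, m0 * (k1 * z) = k1 * (m0 * z) := fun z => by rw [← mul_assoc, even_comm hm0 k1, mul_assoc]
  have c_m0_a0 : m0 * a0 = a0 * m0 := even_comm hm0 a0
  have d_m0_a0 : ∀ z, m0 * (a0 * z) = a0 * (m0 * z) := fun z => by rw [← mul_assoc, even_comm hm0 a0, mul_assoc]
  have c_b0_a1 : b0 * a1 = a1 * b0 := even_comm hb0 a1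
  have d_b0_a1 : ∀ z, b0 * (a1 * z) = a1 * (b0 * z) := fun z => by rw [← mul_assoc, even_comm hb0 a1, mul_assoc]
  have c_b0_m1 : b0 * m1 = m1 * b0 := even_comm hb0 m1
  have d_b0_m1 : ∀ z, b0 * (m1 * z) = m1 * (b0 * z) := fun z => by rw [← mul_assoc, even_comm hb0 m1, mul_assoc]
  have c_b0_b1 : b0 * b1 = b1 * b0 := even_comm hb0 b1
  have d_b0_b1 : ∀ z, b0 * (b1 * z) = b1 * (b0 * z) := fun z => by rw [← mul_assoc, even_comm hb0 b1, mul_assoc]
  have c_b0_k1 : b0 * k1 = k1 * b0 := even_comm hb0 k1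
  have d_b0_k1 : ∀ z, b0 * (k1 * z) = k1 * (b0 * z) := fun z => by rw [← mul_assoc, even_comm hb0 k1, mul_assoc]
  have c_b0_a0 : b0 * a0 = a0 * b0 := even_comm hb0 a0
  have d_b0_a0 : ∀ z, b0 * (a0 * z) = a0 * (b0 * z) := fun z => by rw [← mul_assoc, even_comm hb0 a0, mul_assoc]
  have c_b0_m0 : b0 * m0 = m0 * b0 := even_comm hb0 m0
  have d_b0_m0 : ∀ z, b0 * (m0 * z) = m0 * (b0 * z) := fun z => by rw [← mul_assoc, even_comm hb0 m0, mul_assoc]
  have c_k0_a1 : k0 * a1 = a1 * k0 := even_comm hk0 a1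
  have d_k0_a1 : ∀ z, k0 * (a1 * z) = a1 * (k0 * z) := fun z => by rw [← mul_assoc, even_comm hk0 a1, mul_assoc]
  have c_k0_m1 : k0 * m1 = m1 * k0 := even_comm hk0 m1
  have d_k0_m1 : ∀ z, k0 * (m1 * z) = m1 * (k0 * z) := fun z => by rw [← mul_assoc, even_comm hk0 m1, mul_assoc]
  have c_k0_b1 : k0 * b1 = b1 * k0 := even_comm hk0 b1
  have d_k0_b1 : ∀ z, k0 * (b1 * z) = b1 * (k0 * z) := fun z => by rw [← mul_assoc, even_comm hk0 b1, mul_assoc]
  have c_k0_k1 : k0 * k1 = k1 * k0 := even_comm hk0 k1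
  have d_k0_k1 : ∀ z, k0 * (k1 * z) = k1 * (k0 * z) := fun z => by rw [← mul_assoc, even_comm hk0 k1, mul_assoc]
  have c_k0_a0 : k0 * a0 = a0 * k0 := even_comm hk0 a0
  have d_k0_a0 : ∀ z, k0 * (a0 * z) = a0 * (k0 * z) := fun z => by rw [← mul_assoc, even_comm hk0 a0, mul_assoc]
  have c_k0_m0 : k0 * m0 = m0 * k0 := even_comm hk0 m0
  have d_k0_m0 : ∀ z, k0 * (m0 * z) = m0 * (k0 * z) := fun z => by rw [← mul_assoc, even_comm hk0 m0, mul_assoc]
  have c_k0_b0 : k0 * b0 = b0 * k0 := even_comm hk0 b0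
  have d_k0_b0 : ∀ z, k0 * (b0 * z) = b0 * (k0 * z) := fun z => by rw [← mul_assoc, even_comm hk0 b0, mul_assoc]
  have s_a1 : a1 * a1 = 0 := odd_sq ha1
  have t_a1 : ∀ z, a1 * (a1 * z) = 0 := fun z => by rw [← mul_assoc, odd_sq ha1, zero_mul]
  have s_m1 : m1 * m1 = 0 := odd_sq hm1
  have t_m1 : ∀ z, m1 * (m1 * z) = 0 := fun z => by rw [← mul_assoc, odd_sq hm1, zero_mul]
  have s_b1 : b1 * b1 = 0 := odd_sq hb1
  have t_b1 : ∀ z, b1 * (b1 * z) = 0 := fun z => by rw [← mul_assoc, odd_sq hb1, zero_mul]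
  have s_k1 : k1 * k1 = 0 := odd_sq hk1
  have t_k1 : ∀ z, k1 * (k1 * z) = 0 := fun z => by rw [← mul_assoc, odd_sq hk1, zero_mul]
  simp only [mul_add, add_mul, mul_sub, sub_mul, mul_assoc, smul_add, smul_sub, smul_mul_assoc,
    mul_smul_comm, mul_neg, neg_mul, smul_neg, neg_neg, mul_zero, zero_mul, smul_zero, neg_zero,
    c_m1_a1, d_m1_a1, c_b1_a1, d_b1_a1, c_b1_m1, d_b1_m1, c_k1_a1, d_k1_a1, c_k1_m1, d_k1_m1, c_k1_b1, d_k1_b1, c_a0_a1, d_a0_a1, c_a0_m1, d_a0_m1, c_a0_b1, d_a0_b1, c_a0_k1, d_a0_k1, c_m0_a1, d_m0_a1, c_m0_m1, d_m0_m1, c_m0_b1, d_m0_b1, c_m0_k1, d_m0_k1, c_m0_a0, d_m0_a0, c_b0_a1, d_b0_a1, c_b0_m1, d_b0_m1, c_b0_b1, d_b0_b1, c_b0_k1, d_b0_k1, c_b0_a0, d_b0_a0, c_b0_m0, d_b0_m0, c_k0_a1, d_k0_a1, c_k0_m1, d_k0_m1, c_k0_b1, d_k0_b1, c_k0_k1, d_k0_k1, c_k0_a0, d_k0_a0, c_k0_m0, d_k0_m0, c_k0_b0, d_k0_b0, s_a1, t_a1, s_m1, t_m1, s_b1, t_b1, s_k1, t_k1]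
  module

end Alt

end Pool.Agent.H.MP_a47eec_al
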