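import Pool.Agent.H.MP_a47eec_al.Words
import Pool.Agent.H.MP_a47eec_al.Algebra

set_option autoImplicit false
set_option linter.unusedSimpArgs false

namespace Pool.Agent.H.MP_a47eec_al

open Matrix

/-! ### The split octonions -/

/-- The split octonions by the Cayley-Dickson doubling of `M₂(ℚ)`. -/
def Oct : Type := Matrix (Fin 2) (Fin 2) ℚ × Matrix (Fin 2) (Fin 2) ℚ

namespace Oct

instance : AddCommGroup Oct :=
  inferInstanceAs (AddCommGroup (Matrix (Fin 2) (Fin 2) ℚ × Matrix (Fin 2) (Fin 2) ℚ))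
instance : Module ℚ Oct :=
  inferInstanceAs (Module ℚ (Matrix (Fin 2) (Fin 2) ℚ × Matrix (Fin 2) (Fin 2) ℚ))

instance : Mul Oct := ⟨fun x y =>
  (x.1 * y.1 + Matrix.adjugate y.2 * x.2, y.2 * x.1 + x.2 * Matrix.adjugate y.1)⟩

theorem mul_def (x y : Oct) : x * y =
  (x.1 * y.1 + Matrix.adjugate y.2 * x.2, y.2 * x.1 + x.2 * Matrix.adjugate y.1) := rfl

theorem adj_add (A B : Matrix (Fin 2) (Fin 2) ℚ) : adjugate (A + B) = adjugate A + adjugate B := by
  ext i j
  fin_cases i <;> fin_cases j <;> simp [adjugate_fin_two] <;> ring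

theorem adj_smul (c : ℚ) (A : Matrix (Fin 2) (Fin 2) ℚ) : adjugate (c • A) = c • adjugate A := by
  ext i j
  fin_cases i <;> fin_cases j <;> simp [adjugate_fin_two]

theorem adj_zero : adjugate (0 : Matrix (Fin 2) (Fin 2) ℚ) = 0 := by
  have := adj_smul 0 0
  simpa using this

theorem add_fst (x y : Oct) : (x + y).1 = x.1 + y.1 := rfl
theorem add_snd (x y : Oct) : (x + y).2 = x.2 + y.2 := rfl
theorem smul_fst (c : ℚ) (x : Oct) : (c • x).1 = c • x.1 := rfl
theorem smul_snd (c : ℚ) (x : Oct) : (c • x).2 = c • x.2 := rfl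
theorem zero_fst : (0 : Oct).1 = 0 := rfl
theorem zero_snd : (0 : Oct).2 = 0 := rfl
theorem mul_fst (x y : Oct) : (x * y).1 = x.1 * y.1 + Matrix.adjugate y.2 * x.2 := rfl
theorem mul_snd (x y : Oct) : (x * y).2 = y.2 * x.1 + x.2 * Matrix.adjugate y.1 := rfl

theorem ext' {x y : Oct} (h1 : x.1 = y.1) (h2 : x.2 = y.2) : x = y := Prod.ext h1 h2

instance : NonUnitalNonAssocRing Oct where
  left_distrib x y z := by
    apply ext'
    · simp only [mul_fst, add_fst, add_snd, adj_add, mul_add, add_mul]; abel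
    · simp only [mul_snd, add_fst, add_snd, adj_add, mul_add, add_mul]; abel
  right_distrib x y z := by
    apply ext'
    · simp only [mul_fst, add_fst, add_snd, adj_add, mul_add, add_mul]; abel
    · simp only [mul_snd, add_fst, add_snd, adj_add, mul_add, add_mul]; abel
  zero_mul x := by
    apply ext'
    · simp only [mul_fst, zero_fst, zero_snd, zero_mul, mul_zero, add_zero]
    · simp only [mul_snd, zero_fst, zero_snd, zero_mul, mul_zero, add_zero]
  mul_zero x := by
    apply ext'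
    · simp only [mul_fst, zero_fst, zero_snd, adj_zero, zero_mul, mul_zero, add_zero]
    · simp only [mul_snd, zero_fst, zero_snd, adj_zero, zero_mul, mul_zero, add_zero]

instance : IsScalarTower ℚ Oct Oct where
  smul_assoc c x y := by
    change (c • x) * y = c • (x * y)
    apply ext'
    · simp only [mul_fst, smul_fst, smul_snd, smul_mul_assoc, mul_smul_comm, smul_add]
    · simp only [mul_snd, smul_fst, smul_snd, smul_mul_assoc, mul_smul_comm, smul_add]

instance : SMulCommClass ℚ Oct Oct where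
  smul_comm c x y := by
    change c • (x * y) = x * (c • y)
    apply ext'
    · simp only [mul_fst, smul_fst, smul_snd, adj_smul, smul_mul_assoc, mul_smul_comm, smul_add]
    · simp only [mul_snd, smul_fst, smul_snd, adj_smul, smul_mul_assoc, mul_smul_comm, smul_add]

/-- the identity map, as a linear equivalence -/
def e : (Matrix (Fin 2) (Fin 2) ℚ × Matrix (Fin 2) (Fin 2) ℚ) ≃ₗ[ℚ] Oct := LinearEquiv.refl ℚ _

instance : Module.Finite ℚ Oct := Module.Finite.equiv e

theorem finrank_lt : Module.finrank ℚ Oct < 9 := by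
  rw [← LinearEquiv.finrank_eq e, Module.finrank_prod, Module.finrank_matrix]
  simp

end Oct

/-! ### Evaluation in the algebra `Alt 27` -/

/-- the embedding of the Grassmann algebra -/
noncomputable def emb (g : Gr 27) : Alt 27 := (g, 0)

theorem emb_mul (g h : Gr 27) : emb g * emb h = emb (g * h) := by
  apply Alt.ext'
  · rfl
  · change ev 27 g * 0 + od 27 g * ev 27 0 + 0 * ev 27 h - (2 : ℚ) • (ev 27 0 * od 27 h)
      - od 27 0 * od 27 h = 0
    simp

theorem emb_smul (c : ℚ) (g : Gr 27) : emb (c • g) = c • emb g := by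
  apply Alt.ext'
  · rfl
  · exact (smul_zero c).symm

theorem W_emb (n : ℕ) (u : Fin (n + 1) → (Fin 27 → ℚ)) :
    W (Alt 27) n (fun i => emb (ExteriorAlgebra.ι ℚ (u i)))
      = emb (ExteriorAlgebra.ιMulti ℚ (n + 1) u) := by
  induction n with
  | zero =>
    rw [W_zero, ExteriorAlgebra.ιMulti_apply]
    simp
  | succ n ih =>
    rw [W_succ, ih (fun i => u i.castSucc), emb_mul, ExteriorAlgebra.ιMulti_apply,
      ExteriorAlgebra.ιMulti_apply, List.ofFn_succ' (n := n + 1), List.concat_eq_append,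
      List.prod_append, List.prod_singleton]

theorem alternatization_emb (u : Fin 9 → (Fin 27 → ℚ)) :
    MultilinearMap.alternatization (W (Alt 27) 8)
        (fun i : Fin 9 => emb (ExteriorAlgebra.ι ℚ (u i)))
      = emb ((362880 : ℚ) • ExteriorAlgebra.ιMulti ℚ 9 u) := by
  rw [MultilinearMap.alternatization_apply]
  have h : ∀ σ : Equiv.Perm (Fin 9), Equiv.Perm.sign σ •
      (MultilinearMap.domDomCongr σ (W (Alt 27) 8)) (fun i => emb (ExteriorAlgebra.ι ℚ (u i)))
      = emb (ExteriorAlgebra.ιMulti ℚ 9 u) := by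
    intro σ
    rw [MultilinearMap.domDomCongr_apply, W_emb 8 (fun i => u (σ i))]
    have h1 : ExteriorAlgebra.ιMulti ℚ 9 (fun i => u (σ i))
        = Equiv.Perm.sign σ • ExteriorAlgebra.ιMulti ℚ 9 u :=
      (ExteriorAlgebra.ιMulti ℚ 9).map_perm u σ
    change Equiv.Perm.sign σ • emb ((ExteriorAlgebra.ιMulti ℚ 9) fun i => u (σ i)) = _
    rw [h1]
    rcases Int.units_eq_one_or (Equiv.Perm.sign σ) with hs | hs
    · rw [hs, one_smul, one_smul]
    · rw [hs, Units.neg_smul, one_smul, Units.neg_smul, one_smul]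
      have : emb (-(ExteriorAlgebra.ιMulti ℚ 9 u)) = -emb (ExteriorAlgebra.ιMulti ℚ 9 u) := by
        have := emb_smul (-1) (ExteriorAlgebra.ιMulti ℚ 9 u)
        simpa using this
      rw [this, neg_neg]
  rw [Finset.sum_congr rfl (fun σ _ => h σ), Finset.sum_const, Finset.card_univ,
    Fintype.card_perm, Fintype.card_fin, emb_smul, ← Nat.cast_smul_eq_nsmul ℚ]
  norm_num [Nat.factorial]

/-- the substitution: `x_i ↦ e_i` for `i < 27` and `x_27 ↦ m₀` -/
noncomputable def phi (i : ℕ) : Alt 27 :=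
  if h : i < 27 then emb (ExteriorAlgebra.ι ℚ (Pi.single ⟨i, h⟩ 1)) else ((0, 1) : Gr 27 × Gr 27)

/-- the vectors `e_{9k}, ..., e_{9k+8}` -/
noncomputable def blk (k : ℕ) (hk : k < 3) (i : Fin 9) : Fin 27 → ℚ :=
  Pi.single ⟨9 * k + i.val, by omega⟩ 1

theorem phi_blk (k : ℕ) (hk : k < 3) :
    (fun i : Fin 9 => phi (9 * k + i.val))
      = fun i => emb (ExteriorAlgebra.ι ℚ (blk k hk i)) := by
  funext i
  have : 9 * k + i.val < 27 := by omega
  rw [phi, dif_pos this, blk]

/-- the odd element `9! e_{9k} ... e_{9k+8}` -/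
noncomputable def PP (k : ℕ) (hk : k < 3) : Gr 27 :=
  (362880 : ℚ) • ExteriorAlgebra.ιMulti ℚ 9 (blk k hk)

theorem PP_odd (k : ℕ) (hk : k < 3) : tau 27 (PP k hk) = - PP k hk := by
  rw [PP, map_smul, ← smul_neg, ExteriorAlgebra.ιMulti_apply]
  congr 1
  have h := CliffordAlgebra.involute_prod_map_ι (Q := (0 : QuadraticForm ℚ (Fin 27 → ℚ)))
    (List.ofFn (blk k hk))
  rw [List.length_ofFn, List.map_ofFn] at h
  have h2 : ((-1 : ℚ)) ^ 9 = -1 := by norm_num
  rw [h2, neg_one_smul] at h
  exact h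

theorem det_single (n : ℕ) :
    (Matrix.detRowAlternating : (Fin n → ℚ) [⋀^Fin n]→ₗ[ℚ] ℚ) (fun i => Pi.single i 1) = 1 := by
  have h : (fun i => Pi.single i 1 : Fin n → (Fin n → ℚ)) = (1 : Matrix (Fin n) (Fin n) ℚ) := by
    funext i j
    rw [Matrix.one_apply, Pi.single_apply]
    simp only [eq_comm]
  rw [h]
  exact Matrix.det_one

theorem ιMulti_single_ne_zero (n : ℕ) :
    ExteriorAlgebra.ιMulti ℚ n (fun i : Fin n => (Pi.single i 1 : Fin n → ℚ)) ≠ 0 := by
  intro h1
  have h3 := congrArg (ExteriorAlgebra.liftAlternating (R := ℚ) (M := Fin n → ℚ) (N := ℚ)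
    (Function.update (0 : ∀ i, (Fin n → ℚ) [⋀^Fin i]→ₗ[ℚ] ℚ) n Matrix.detRowAlternating)) h1
  rw [ExteriorAlgebra.liftAlternating_apply_ιMulti, map_zero, Function.update_self,
    det_single] at h3
  exact one_ne_zero h3

theorem append_blk : (Fin.append (Fin.append (blk 0 (by norm_num)) (blk 1 (by norm_num)))
      (blk 2 (by norm_num)) : Fin (9 + 9 + 9) → (Fin 27 → ℚ)) = fun i => Pi.single i 1 := by
  funext i
  refine Fin.addCases (m := 9 + 9) (n := 9) (fun j => ?_) (fun j => ?_) i
  · rw [Fin.append_left]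
    refine Fin.addCases (m := 9) (n := 9) (fun l => ?_) (fun l => ?_) j
    · rw [Fin.append_left]
      unfold blk
      congr 1
      apply Fin.ext
      simp
    · rw [Fin.append_right]
      unfold blk
      congr 1
  · rw [Fin.append_right]
    unfold blk
    congr 1

theorem PPP_ne_zero : PP 0 (by norm_num) * PP 1 (by norm_num) * PP 2 (by norm_num) ≠ 0 := by
  intro h
  rw [PP, PP, PP, smul_mul_smul_comm, smul_mul_smul_comm, ExteriorAlgebra.ιMulti_mul_ιMulti,
    ExteriorAlgebra.ιMulti_mul_ιMulti] at h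
  rcases smul_eq_zero.1 h with h2 | h2
  · norm_num at h2
  · rw [append_blk] at h2
    exact ιMulti_single_ne_zero 27 h2

/-- constructor -/
noncomputable def mk (g m : Gr 27) : Alt 27 := (g, m)

theorem emb_mul_m (g : Gr 27) : emb g * mk 0 1 = mk 0 g := by
  apply Alt.ext'
  · change g * 0 = 0
    exact mul_zero g
  · change ev 27 g * 1 + od 27 g * ev 27 1 + 0 * ev 27 0 - (2 : ℚ) • (ev 27 0 * od 27 0)
      - od 27 0 * od 27 0 = g
    have h1 : ev 27 (1 : Gr 27) = 1 := ev_of_even (map_one _)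
    rw [h1]
    simp [ev_add_od]

theorem emb_odd_mul_odd {g r : Gr 27} (hg : tau 27 g = -g) (hr : tau 27 r = -r) :
    emb g * mk 0 r = 0 := by
  apply Alt.ext'
  · change g * 0 = 0
    exact mul_zero g
  · change ev 27 g * r + od 27 g * ev 27 r + 0 * ev 27 0 - (2 : ℚ) • (ev 27 0 * od 27 0)
      - od 27 0 * od 27 0 = 0
    rw [ev_of_odd hg, ev_of_odd hr]
    simp

theorem emb_even_mul {g r : Gr 27} (hg : tau 27 g = g) :
    emb g * mk 0 r = mk 0 (g * r) := by
  apply Alt.ext'
  · change g * 0 = 0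
    exact mul_zero g
  · change ev 27 g * r + od 27 g * ev 27 r + 0 * ev 27 0 - (2 : ℚ) • (ev 27 0 * od 27 0)
      - od 27 0 * od 27 0 = g * r
    rw [ev_of_even hg, od_of_even hg]
    simp

theorem eval_skew_phi (k : ℕ) (hk : k < 3) :
    (skew k).sum (fun m c => c • FreeMagma.lift phi m) = emb (PP k hk) := by
  rw [eval_skew, phi_blk k hk, alternatization_emb, PP]

theorem eval_skewMul_phi :
    (skewMul 2 27).sum (fun m c => c • FreeMagma.lift phi m)
      = mk 0 (PP 2 (by norm_num)) := by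
  rw [eval_skewMul, phi_blk 2 (by norm_num), alternatization_emb]
  have : phi 27 = mk 0 1 := by rw [phi, dif_neg (by norm_num)]; rfl
  rw [this, emb_mul_m, PP]

theorem key_ne :
    ((skew 0).sum (fun m c => c • FreeMagma.lift phi m)
        * (skew 1).sum (fun m c => c • FreeMagma.lift phi m))
        * (skewMul 2 27).sum (fun m c => c • FreeMagma.lift phi m) ≠
      (skew 0).sum (fun m c => c • FreeMagma.lift phi m)
        * ((skew 1).sum (fun m c => c • FreeMagma.lift phi m)
          * (skewMul 2 27).sum (fun m c => c • FreeMagma.lift phi m)) := by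
  rw [eval_skew_phi 0 (by norm_num), eval_skew_phi 1 (by norm_num), eval_skewMul_phi, emb_mul,
    emb_even_mul, emb_odd_mul_odd (PP_odd 1 _) (PP_odd 2 _), mul_zero]
  · intro h
    exact PPP_ne_zero (congrArg Prod.snd h)
  · rw [map_mul, PP_odd, PP_odd, neg_mul_neg]

theorem skew_zero (k : ℕ) (ψ : ℕ → Oct) :
    (skew k).sum (fun m c => c • FreeMagma.lift ψ m) = 0 := by
  rw [eval_skew]
  exact alternatization_eq_zero Oct Oct.finrank_lt _

theorem skewMul_zero (k l : ℕ) (ψ : ℕ → Oct) :
    (skewMul k l).sum (fun m c => c • FreeMagma.lift ψ m) = 0 := by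
  rw [eval_skewMul, alternatization_eq_zero Oct Oct.finrank_lt, zero_mul]

end Pool.Agent.H.MP_a47eec_al
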