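import Mathlib

set_option autoImplicit false

/-! Left-normed words, their evaluation, and the skew-symmetric polynomials `skew k`. -/

namespace Pool.Agent.H.MP_a47eec_al

/-- the left-normed word `(((x_{v 0} x_{v 1}) x_{v 2}) ...) x_{v n}` in the free magma -/
def wordM : (n : ℕ) → (Fin (n + 1) → ℕ) → FreeMagma ℕ
  | 0, v => FreeMagma.of (v 0)
  | n + 1, v => wordM n (fun i => v i.castSucc) * FreeMagma.of (v (Fin.last (n + 1)))

section
variable (C : Type) [NonUnitalNonAssocRing C] [Module ℚ C] [IsScalarTower ℚ C C]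
  [SMulCommClass ℚ C C]

/-- the left-normed product of `n + 1` elements, as a multilinear map -/
noncomputable def W : (n : ℕ) → MultilinearMap ℚ (fun _ : Fin (n + 1) => C) C
  | 0 => MultilinearMap.ofSubsingleton ℚ C C (0 : Fin 1) LinearMap.id
  | n + 1 => ((LinearMap.mul ℚ C).compMultilinearMap (W n)).uncurryRight

theorem W_zero (v : Fin 1 → C) : W C 0 v = v 0 := rfl

theorem W_succ (n : ℕ) (v : Fin (n + 2) → C) :
    W C (n + 1) v = W C n (fun i => v i.castSucc) * v (Fin.last (n + 1)) := rfl

theorem lift_wordM (n : ℕ) (v : Fin (n + 1) → ℕ) (ψ : ℕ → C) :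
    FreeMagma.lift ψ (wordM n v) = W C n (fun i => ψ (v i)) := by
  induction n with
  | zero => simp [wordM, W_zero]
  | succ n ih =>
    rw [wordM, map_mul, ih, W_succ, FreeMagma.lift_of]

end

/-- the skew-symmetric sum of left-normed words in the nine variables `x_{9k}, ..., x_{9k+8}` -/
noncomputable def skew (k : ℕ) : FreeMagma ℕ →₀ ℚ :=
  ∑ σ : Equiv.Perm (Fin 9),
    Finsupp.single (wordM 8 (fun i => 9 * k + (σ i).val)) ((Equiv.Perm.sign σ : ℤ) : ℚ)

/-- `skew k` multiplied on the right by the variable `x_l` -/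
noncomputable def skewMul (k l : ℕ) : FreeMagma ℕ →₀ ℚ :=
  ∑ σ : Equiv.Perm (Fin 9),
    Finsupp.single (wordM 8 (fun i => 9 * k + (σ i).val) * FreeMagma.of l)
      ((Equiv.Perm.sign σ : ℤ) : ℚ)

section
variable (C : Type) [NonUnitalNonAssocRing C] [Module ℚ C] [IsScalarTower ℚ C C]
  [SMulCommClass ℚ C C]

theorem sum_eq_linearCombination (f : FreeMagma ℕ →₀ ℚ) (ψ : ℕ → C) :
    f.sum (fun m c => c • FreeMagma.lift ψ m)
      = Finsupp.linearCombination ℚ (fun m => FreeMagma.lift ψ m) f := rfl

theorem eval_skew (k : ℕ) (ψ : ℕ → C) :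
    (skew k).sum (fun m c => c • FreeMagma.lift ψ m)
      = MultilinearMap.alternatization (W C 8) (fun i : Fin 9 => ψ (9 * k + i.val)) := by
  rw [sum_eq_linearCombination, skew, map_sum, MultilinearMap.alternatization_apply]
  refine Finset.sum_congr rfl fun σ _ => ?_
  rw [Finsupp.linearCombination_single, lift_wordM, MultilinearMap.domDomCongr_apply]
  rw [Units.smul_def, ← Int.cast_smul_eq_zsmul ℚ]

theorem eval_skewMul (k l : ℕ) (ψ : ℕ → C) :
    (skewMul k l).sum (fun m c => c • FreeMagma.lift ψ m)
      = MultilinearMap.alternatization (W C 8) (fun i : Fin 9 => ψ (9 * k + i.val)) * ψ l := by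
  rw [sum_eq_linearCombination, skewMul, map_sum, MultilinearMap.alternatization_apply,
    Finset.sum_mul]
  refine Finset.sum_congr rfl fun σ _ => ?_
  rw [Finsupp.linearCombination_single, map_mul, lift_wordM, MultilinearMap.domDomCongr_apply,
    FreeMagma.lift_of]
  rw [Units.smul_def, ← Int.cast_smul_eq_zsmul ℚ, smul_mul_assoc]

/-- A skew-symmetric polynomial in nine variables vanishes on an algebra of dimension eight. -/
theorem alternatization_eq_zero [Module.Finite ℚ C] (h : Module.finrank ℚ C < 9)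
    (v : Fin 9 → C) : MultilinearMap.alternatization (W C 8) v = 0 := by
  refine AlternatingMap.map_linearDependent _ v fun hv => ?_
  have := hv.fintype_card_le_finrank
  rw [Fintype.card_fin] at this
  omega

end

end Pool.Agent.H.MP_a47eec_al
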